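import Pool.Agent.Helper75.CR.St2

/-!
# Project CR (MP_265e56_al): module N3
-/

set_option autoImplicit false

namespace Pool.Agent.Helper90.CR

open Pool.Agent.Helper75.CR Helper1.IM

theorem J_of_mem (θ : FIC) {u : Wd} {a : Lt} (h : a ∈ u) : Jl (toP θ) u [a] := by
  obtain ⟨x, y, rfl⟩ := List.append_of_mem h
  refine ⟨x, y, ?_⟩
  have : x ++ [a] ++ y = x ++ a :: y := by simp
  rw [this]
  exact θ.refl' _

theorem J_trans (θ : FIC) {u v w : Wd} (h : Jl (toP θ) u v) (h' : Jl (toP θ) v w) : Jl (toP θ) u w := by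
  obtain ⟨a, d, h⟩ := h
  obtain ⟨a', d', h'⟩ := h'
  refine ⟨a ++ a', d' ++ d, ?_⟩
  have h2 := θ.mul' a d h'
  have h3 := θ.trans' h h2
  change θ.r _ _
  simpa [List.append_assoc] using h3

theorem J_left (θ : FIC) {u u' v : Wd} (h : θ.r u u') (h' : Jl (toP θ) u' v) : Jl (toP θ) u v := by
  obtain ⟨a, d, h'⟩ := h'
  exact ⟨a, d, θ.trans' h h'⟩

theorem J_sub (θ : FIC) {u v : Wd} (f : ℕ → Wd) (hf : ∀ i, f i ≠ []) (h : Jl (toP θ) u v) :
    Jl (toP θ) (sb f u) (sb f v) := by
  obtain ⟨a, d, h⟩ := h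
  refine ⟨sb f a, sb f d, ?_⟩
  have h2 := θ.sub' f hf h
  rw [sb_append, sb_append] at h2
  exact h2

theorem J_letters (hL2 : StL2) (θ : FIC) (hC : CRW (toP θ)) {u t : Wd} (hu : u ≠ [])
    (h : ∀ a ∈ t, a ∈ u) (ht : t ≠ []) : Jl (toP θ) u t :=
  (hL2 Bool _ (toP θ) hC u t hu (fun a ha => J_of_mem θ (h a ha))).2.2 ht

theorem fl_mem_st {s : Wd} {c : Lt} : c ∈ st s ↔ fl c ∈ s := by
  unfold st
  rw [List.mem_reverse, List.mem_map]
  constructor
  · rintro ⟨a, ha, rfl⟩
    rwa [fl_fl]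
  · intro h
    exact ⟨fl c, h, fl_fl c⟩

/-- the key step -/
theorem key (hL2 : StL2) (θ : FIC) (hC : CRW (toP θ)) (u v : Wd) (a : Lt) (h : θ.r u v)
    (hv : a ∈ v) (hu : a ∉ u) : Jl (toP θ) [X 0, Y 0, X 1] [Y 1] := by
  let f : ℕ → Wd := fun i => if i = a.1 then (if a.2 then [X 1] else [Y 1]) else [X 0, Y 0]
  have hf : ∀ i, f i ≠ [] := by
    intro i
    simp only [f]
    split_ifs <;> simp
  have hfa : sb f [a] = [Y 1] := by
    rw [sb_single]
    rcases a with ⟨i, b⟩
    cases b <;> simp [f, fl, X, Y]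
  have hfu : ∀ b ∈ u, ∀ c ∈ sb f [b], c ∈ [X 0, Y 0, X 1] := by
    intro b hb c hc
    rw [sb_single] at hc
    have hba : b ≠ a := fun hh => hu (hh ▸ hb)
    by_cases hb1 : b.1 = a.1
    · rcases a with ⟨i, p⟩
      rcases b with ⟨j, q⟩
      simp only at hb1
      subst hb1
      have hpq : q ≠ p := fun hh => hba (by rw [hh])
      cases p <;> cases q <;> simp_all [f, fl, X, Y, st]
    · have hfb : f b.1 = [X 0, Y 0] := by simp [f, hb1]
      rw [hfb] at hc
      have h2 : st [X 0, Y 0] = [X 0, Y 0] := by simp [st, fl, X, Y]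
      rw [h2, ite_self] at hc
      simp only [List.mem_cons, List.not_mem_nil, or_false] at hc ⊢
      tauto
  have hU : ∀ c ∈ sb f u, c ∈ [X 0, Y 0, X 1] := by
    have : ∀ w : Wd, (∀ b ∈ w, b ∈ u) → ∀ c ∈ sb f w, c ∈ [X 0, Y 0, X 1] := by
      intro w
      induction w with
      | nil =>
        intro _ c hc
        simp at hc
      | cons b w ih =>
        intro hw c hc
        have h3 : sb f (b :: w) = sb f [b] ++ sb f w := by
          rw [← sb_append]; rfl
        rw [h3, List.mem_append] at hc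
        rcases hc with hc | hc
        · exact hfu b (hw b (by simp)) c hc
        · exact ih (fun b' hb' => hw b' (by simp [hb'])) c hc
    exact this u (fun b hb => hb)
  have hV : Y 1 ∈ sb f v := by
    obtain ⟨x, y, rfl⟩ := List.append_of_mem hv
    have h3 : sb f (x ++ a :: y) = sb f x ++ (sb f [a] ++ sb f y) := by
      rw [← sb_append, ← sb_append]; rfl
    rw [h3, hfa]
    simp
  have h1 : θ.r ([X 0, Y 0] ++ sb f u ++ [X 1]) ([X 0, Y 0] ++ sb f v ++ [X 1]) :=
    θ.mul' _ _ (θ.sub' f hf h)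
  have h2 : Jl (toP θ) [X 0, Y 0, X 1] ([X 0, Y 0] ++ sb f u ++ [X 1]) := by
    apply J_letters hL2 θ hC (by simp)
    · intro c hc
      simp only [List.mem_append] at hc
      rcases hc with (hc | hc) | hc
      · simp only [List.mem_cons, List.not_mem_nil, or_false] at hc ⊢
        tauto
      · exact hU c hc
      · simp only [List.mem_cons, List.not_mem_nil, or_false] at hc ⊢
        tauto
    · simp
  have h3 : Jl (toP θ) ([X 0, Y 0] ++ sb f v ++ [X 1]) [Y 1] := by
    apply J_of_mem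
    simp [hV]
  exact J_trans θ h2 (J_left θ h1 h3)

theorem hN3 (_hL1 : StL1) (hL2 : StL2) (hM1 : Pool.Agent.Helper75.CR.StM1) (hN1 : StN1) (hN2 : StN2) : StN3 := by
  intro θ hθ hP hS hne
  have hC : CRW (toP θ) := (hM1 θ hθ).1
  have hstar : Jl (toP θ) [X 0, Y 0, X 1] [Y 1] := by
    push Not at hne
    obtain ⟨u, v, huv, hsc⟩ := hne
    unfold SC at hsc
    push Not at hsc
    obtain ⟨a, ha⟩ := hsc
    rcases ha with ⟨h1, h2⟩ | ⟨h1, h2⟩
    · exact key hL2 θ hC v u a (θ.symm' huv) h1 h2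
    · exact key hL2 θ hC u v a huv h2 h1
  -- letters of the star
  have hlet : ∀ s : Wd, Prd s → ∀ c : Lt, fl c ∈ s → Jl (toP θ) s [c] := by
    intro s hs c hc
    obtain ⟨l, hl1, hl2⟩ := hs
    have hs0 : s ≠ [] := List.ne_nil_of_mem hl1
    have h1 : Jl (toP θ) s [(l, false), (l, true), fl c] := by
      apply J_letters hL2 θ hC hs0
      · intro a ha
        simp only [List.mem_cons, List.not_mem_nil, or_false] at ha
        rcases ha with rfl | rfl | rfl
        · exact hl1
        · exact hl2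
        · exact hc
      · simp
    let g : ℕ → Wd := fun i => if i = 0 then [(l, false)] else [fl c]
    have hg : ∀ i, g i ≠ [] := by
      intro i
      simp only [g]
      split_ifs <;> simp
    have h2 := J_sub θ g hg hstar
    have h3 : sb g [X 0, Y 0, X 1] = [(l, false), (l, true), fl c] := by
      simp [g, st, fl]
    have h4 : sb g [Y 1] = [c] := by
      simp [g, st]
    rw [h3, h4] at h2
    exact J_trans θ h1 h2
  have hss : ∀ s : Wd, Prd s → θ.r s (s ++ st s) := by
    intro s hs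
    have hs0 : s ≠ [] := by
      obtain ⟨l, hl1, _⟩ := hs
      exact List.ne_nil_of_mem hl1
    have h1 := (hL2 Bool _ (toP θ) hC s (st s) hs0
      (fun c hc => hlet s hs c (fl_mem_st.1 hc))).1
    exact hN1 θ hP s hs0 h1
  intro s t hs ht hst
  have hs0 : s ≠ [] := by
    obtain ⟨l, hl1, _⟩ := hs
    exact List.ne_nil_of_mem hl1
  have ht0 : t ≠ [] := by
    obtain ⟨l, hl1, _⟩ := ht
    exact List.ne_nil_of_mem hl1
  have hmem : ∀ w : Wd, ∀ c : Lt, c ∈ w ++ st w ↔ c.1 ∈ ct w := by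
    intro w c
    rw [List.mem_append, fl_mem_st, mem_ct]
    constructor
    · rintro (h | h)
      · exact ⟨c.2, h⟩
      · exact ⟨!c.2, h⟩
    · rintro ⟨b, hb⟩
      by_cases hbc : b = c.2
      · left
        rw [hbc] at hb
        exact hb
      · right
        have : b = !c.2 := by
          cases b <;> cases hc2 : c.2 <;> simp_all
        rw [this] at hb
        exact hb
  have hclosed : ∀ w : Wd, ∀ a ∈ w ++ st w, fl a ∈ w ++ st w := by
    intro w a ha
    rw [hmem] at ha ⊢
    exact ha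
  have h1 : θ.r (s ++ st s) (t ++ st t) := by
    apply hN2 θ hθ hP
    · simp [hs0]
    · simp [ht0]
    · exact hclosed s
    · exact hclosed t
    · intro a
      rw [hmem, hmem, hst]
  exact θ.trans' (hss s hs) (θ.trans' h1 (θ.symm' (hss t ht)))

end Pool.Agent.Helper90.CR
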